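import Pool.Agent.K.MP_b53add_lc.C4

set_option autoImplicit false

namespace Pool.Agent.Results.MP_b53add_lc.BoundedOccurrence

open Pool.Agent.P.MP_b53add_lc

theorem result :
    (∃ δ : ℝ, 0 < δ ∧ ∀ d : ℕ, ∀ N₀ : ℕ, ∃ n : ℕ, N₀ ≤ n ∧ 1 ≤ n ∧
      ¬ Solves n d ((2 : ℝ) ^ (δ * (n : ℝ))) (fun _ => True)) ↔
    (∃ δ : ℝ, 0 < δ ∧ ∃ c : ℕ, ∀ d : ℕ, ∀ N₀ : ℕ, ∃ n : ℕ, N₀ ≤ n ∧ 1 ≤ n ∧
      ¬ Solves n d ((2 : ℝ) ^ (δ * (n : ℝ))) (fun x => ∀ v : Fin n,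
        (Finset.univ.filter fun cl : {c : Finset (Fin n × Bool) // c.card ≤ 3} =>
          x cl = true ∧ ((v, true) ∈ cl.1 ∨ (v, false) ∈ cl.1)).card ≤ c)) :=
  sparse_equiv

end Pool.Agent.Results.MP_b53add_lc.BoundedOccurrence
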