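import Pool.Agent.K.MP_b53add_lc.C5
import Pool.Agent.P.MP_b53add_lc.TnNeg

set_option autoImplicit false

namespace Pool.Agent.Results.MP_b53add_lc.FewNegations

theorem result :
  ∃ δ : ℝ, 0 < δ ∧ ∀ n k : ℕ,
    ¬ ∃ (m : ℕ) (kind : Fin m → Fin 3)
        (predIn : Fin m → Finset {c : Finset (Fin n × Bool) // c.card ≤ 3})
        (predG : Fin m → Finset (Fin m)) (o : Fin m),
      (∀ j : Fin m, ∀ i ∈ predG j, i < j) ∧
      (∀ j : Fin m, kind j = 2 → (predIn j).card + (predG j).card = 1) ∧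
      (∃ lvl : Fin m → ℕ,
        (∀ j : Fin m, ∀ i ∈ predG j, lvl i + (if kind j = 2 then 1 else 0) ≤ lvl j) ∧
        (∏ e ∈ Finset.range (lvl o + 1),
          ((Finset.univ.filter fun j : Fin m => kind j = 2 ∧ lvl j = e).card + 1)) * k ≤ n) ∧
      ((Fintype.card {c : Finset (Fin n × Bool) // c.card ≤ 3} : ℝ) + (m : ℝ)
          ≤ (2 : ℝ) ^ (δ * (k : ℝ))) ∧
      ∀ x : {c : Finset (Fin n × Bool) // c.card ≤ 3} → Bool,
        (∀ c, x c = true → ∀ l ∈ c.1, ∀ l' ∈ c.1, l.1.val / k = l'.1.val / k) →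
        ((∃ v : Fin m → Bool,
          (∀ j : Fin m,
            (kind j = 0 → (v j = true ↔
              ((∃ i ∈ predIn j, x i = true) ∨ ∃ i ∈ predG j, v i = true))) ∧
            (kind j = 1 → (v j = true ↔
              ((∀ i ∈ predIn j, x i = true) ∧ ∀ i ∈ predG j, v i = true))) ∧
            (kind j = 2 → (v j = true ↔
              ¬ ((∀ i ∈ predIn j, x i = true) ∧ ∀ i ∈ predG j, v i = true)))) ∧
          v o = true) ↔
        ∃ a : Fin n → Bool, ∀ c : {c : Finset (Fin n × Bool) // c.card ≤ 3},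
          x c = true → ∃ l ∈ c.1, a l.1 = l.2) := by
  refine ⟨1 / (8 * 10 ^ 18), by norm_num, fun n k => ?_⟩
  rintro ⟨m, kind, predIn, predG, o, h1, h2, ⟨lvl, h3, h4⟩, h6, h7⟩
  refine absurd h6 (not_le.2 (Pool.Agent.P.MP_b53add_lc.Neg.neg_real
    (⟨m, kind, predIn, predG, h1, h2⟩) o (lvl := lvl) h3 h7 ?_))
  convert h4

/-- Side theorem 1: the bound of hypothesis H for circuits with at most `t` NOT gates, at any
depth and for all large `n`. -/
theorem bounded_negations (t : ℕ) :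
  ∃ δ : ℝ, 0 < δ ∧ ∃ N₀ : ℕ, ∀ n : ℕ, N₀ ≤ n →
    ¬ ∃ (m : ℕ) (kind : Fin m → Fin 3)
        (predIn : Fin m → Finset {c : Finset (Fin n × Bool) // c.card ≤ 3})
        (predG : Fin m → Finset (Fin m)) (o : Fin m),
      (∀ j : Fin m, ∀ i ∈ predG j, i < j) ∧
      (∀ j : Fin m, kind j = 2 → (predIn j).card + (predG j).card = 1) ∧
      (Finset.univ.filter fun j : Fin m => kind j = 2).card ≤ t ∧
      ((Fintype.card {c : Finset (Fin n × Bool) // c.card ≤ 3} : ℝ) + (m : ℝ)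
          ≤ (2 : ℝ) ^ (δ * (n : ℝ))) ∧
      ∀ x : {c : Finset (Fin n × Bool) // c.card ≤ 3} → Bool,
        ((∃ v : Fin m → Bool,
          (∀ j : Fin m,
            (kind j = 0 → (v j = true ↔
              ((∃ i ∈ predIn j, x i = true) ∨ ∃ i ∈ predG j, v i = true))) ∧
            (kind j = 1 → (v j = true ↔
              ((∀ i ∈ predIn j, x i = true) ∧ ∀ i ∈ predG j, v i = true))) ∧
            (kind j = 2 → (v j = true ↔
              ¬ ((∀ i ∈ predIn j, x i = true) ∧ ∀ i ∈ predG j, v i = true)))) ∧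
          v o = true) ↔
        ∃ a : Fin n → Bool, ∀ c : {c : Finset (Fin n × Bool) // c.card ≤ 3},
          x c = true → ∃ l ∈ c.1, a l.1 = l.2) :=
  Pool.Agent.P.MP_b53add_lc.Tn.bounded result t

/-- Side theorem 2: depth at most `d` and at most `t` NOT gates. -/
theorem fixed_depth :
  ∃ δ : ℝ, 0 < δ ∧ ∀ d t n : ℕ,
    ¬ ∃ (m : ℕ) (kind : Fin m → Fin 3)
        (predIn : Fin m → Finset {c : Finset (Fin n × Bool) // c.card ≤ 3})
        (predG : Fin m → Finset (Fin m)) (o : Fin m),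
      (∀ j : Fin m, ∀ i ∈ predG j, i < j) ∧
      (∀ j : Fin m, kind j = 2 → (predIn j).card + (predG j).card = 1) ∧
      (∃ lvl : Fin m → ℕ, (∀ j : Fin m, 1 ≤ lvl j) ∧
        (∀ j : Fin m, ∀ i ∈ predG j, lvl i + 1 ≤ lvl j) ∧ lvl o ≤ d) ∧
      (Finset.univ.filter fun j : Fin m => kind j = 2).card ≤ t ∧
      ((Fintype.card {c : Finset (Fin n × Bool) // c.card ≤ 3} : ℝ) + (m : ℝ)
          ≤ (2 : ℝ) ^ (δ * ((n / (t + 1) ^ d : ℕ) : ℝ))) ∧
      ∀ x : {c : Finset (Fin n × Bool) // c.card ≤ 3} → Bool,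
        ((∃ v : Fin m → Bool,
          (∀ j : Fin m,
            (kind j = 0 → (v j = true ↔
              ((∃ i ∈ predIn j, x i = true) ∨ ∃ i ∈ predG j, v i = true))) ∧
            (kind j = 1 → (v j = true ↔
              ((∀ i ∈ predIn j, x i = true) ∧ ∀ i ∈ predG j, v i = true))) ∧
            (kind j = 2 → (v j = true ↔
              ¬ ((∀ i ∈ predIn j, x i = true) ∧ ∀ i ∈ predG j, v i = true)))) ∧
          v o = true) ↔
        ∃ a : Fin n → Bool, ∀ c : {c : Finset (Fin n × Bool) // c.card ≤ 3},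
          x c = true → ∃ l ∈ c.1, a l.1 = l.2) :=
  Pool.Agent.P.MP_b53add_lc.Tn.depth result

/-- Side theorem 3: `L`, `M` are the integer parts of the binary logarithms of `n`, `N`, where `N`
is the number of clauses that lie inside a block of length `L ^ 2`; with `t ≤ log N - 7 log M`
NOT gates no circuit with `N ^ e` gates is correct on these inputs. -/
theorem log_negations (e : ℕ) :
  ∃ N₀ : ℕ, ∀ n L k N M t : ℕ, N₀ ≤ n → 2 ^ L ≤ n → n < 2 ^ (L + 1) → k = L ^ 2 →
    N = (Finset.univ.filter fun c : {c : Finset (Fin n × Bool) // c.card ≤ 3} =>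
      ∀ l ∈ c.1, ∀ l' ∈ c.1, l.1.val / k = l'.1.val / k).card →
    2 ^ M ≤ N → N < 2 ^ (M + 1) → 2 ^ t * M ^ 7 ≤ N →
    ¬ ∃ (m : ℕ) (kind : Fin m → Fin 3)
        (predIn : Fin m → Finset {c : Finset (Fin n × Bool) // c.card ≤ 3})
        (predG : Fin m → Finset (Fin m)) (o : Fin m),
      (∀ j : Fin m, ∀ i ∈ predG j, i < j) ∧
      (∀ j : Fin m, kind j = 2 → (predIn j).card + (predG j).card = 1) ∧
      (Finset.univ.filter fun j : Fin m => kind j = 2).card ≤ t ∧
      m ≤ N ^ e ∧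
      ∀ x : {c : Finset (Fin n × Bool) // c.card ≤ 3} → Bool,
        (∀ c, x c = true → ∀ l ∈ c.1, ∀ l' ∈ c.1, l.1.val / k = l'.1.val / k) →
        ((∃ v : Fin m → Bool,
          (∀ j : Fin m,
            (kind j = 0 → (v j = true ↔
              ((∃ i ∈ predIn j, x i = true) ∨ ∃ i ∈ predG j, v i = true))) ∧
            (kind j = 1 → (v j = true ↔
              ((∀ i ∈ predIn j, x i = true) ∧ ∀ i ∈ predG j, v i = true))) ∧
            (kind j = 2 → (v j = true ↔
              ¬ ((∀ i ∈ predIn j, x i = true) ∧ ∀ i ∈ predG j, v i = true)))) ∧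
          v o = true) ↔
        ∃ a : Fin n → Bool, ∀ c : {c : Finset (Fin n × Bool) // c.card ≤ 3},
          x c = true → ∃ l ∈ c.1, a l.1 = l.2) :=
  Pool.Agent.P.MP_b53add_lc.Tn.log_inputs' result e

end Pool.Agent.Results.MP_b53add_lc.FewNegations
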