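import Pool.Agent.K.MP_b53add_lc.C11
import Pool.Agent.P.MP_b53add_lc.TnMon

set_option autoImplicit false

namespace Pool.Agent.Results.MP_b53add_lc.MonotoneLinear

open Pool.Agent.P.MP_b53add_lc.Sp

theorem result : ∃ (c t K n₁ : ℕ) (δ : ℝ), 0 < δ ∧ ∀ n : ℕ, n₁ ≤ n →
    Nat.card {C : Finset (Fin n × Bool) // InPool c t n C} ≤ K * n ∧
    ∀ (s : ℕ) (a b : Fin s → {C : Finset (Fin n × Bool) // InPool c t n C} ⊕ Fin s)
      (F : Fin s → ℝ → ℝ → ℝ) (o : Fin s)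
      (v : ({C : Finset (Fin n × Bool) // InPool c t n C} → Bool) →
        {C : Finset (Fin n × Bool) // InPool c t n C} ⊕ Fin s → ℝ),
      (∀ j k, a j = Sum.inr k ∨ b j = Sum.inr k → k < j) →
      (∀ j p p' q q', p ≤ p' → q ≤ q' → F j p q ≤ F j p' q') →
      (∀ x C, v x (Sum.inl C) = if x C = true then 1 else 0) →
      (∀ x j, v x (Sum.inr j) = F j (v x (a j)) (v x (b j))) →
      (∀ x, 0 < v x (Sum.inr o) ↔
        ¬ ∃ y : Fin n → Bool, ∀ C, x C = true → ∃ l ∈ C.1, y l.1 = l.2) →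
      (2 : ℝ) ^ (δ * n) ≤ s :=
  Pool.Agent.P.MP_b53add_lc.Sp.main

/-- Side theorem: the same bound for AND / OR gates of any fan-in, size = inputs + gates. -/
theorem and_or_gates : ∃ (c t K n₁ : ℕ) (δ : ℝ), 0 < δ ∧ ∀ n : ℕ, n₁ ≤ n →
    Nat.card {C : Finset (Fin n × Bool) // InPool c t n C} ≤ K * n ∧
    ∀ (m : ℕ) (kind : Fin m → Bool)
      (predIn : Fin m → Finset {C : Finset (Fin n × Bool) // InPool c t n C})
      (predG : Fin m → Finset (Fin m)) (o : Fin m)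
      (v : ({C : Finset (Fin n × Bool) // InPool c t n C} → Bool) → Fin m → Bool),
      (∀ j, ∀ i ∈ predG j, i < j) →
      (∀ x j, ¬ kind j = true → (v x j = true ↔
        (∃ i ∈ predIn j, x i = true) ∨ ∃ i ∈ predG j, v x i = true)) →
      (∀ x j, kind j = true → (v x j = true ↔
        (∀ i ∈ predIn j, x i = true) ∧ ∀ i ∈ predG j, v x i = true)) →
      (∀ x, v x o = true ↔
        ¬ ∃ y : Fin n → Bool, ∀ C, x C = true → ∃ l ∈ C.1, y l.1 = l.2) →
      (2 : ℝ) ^ (δ * n) ≤ (Nat.card {C : Finset (Fin n × Bool) // InPool c t n C} : ℝ) + m := by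
  obtain ⟨c, t, K, n₁, δ, hδ, R⟩ := result
  obtain ⟨n₂, h⟩ := Pool.Agent.P.MP_b53add_lc.Tn.size_bound hδ
  refine ⟨c, t, K, n₁ + n₂ + 1, δ / 4, by positivity, fun n hn => ⟨(R n (by omega)).1, ?_⟩⟩
  intro m kind predIn predG o v h1 h2 h3 h4
  exact h n (by omega) _ m (Pool.Agent.P.MP_b53add_lc.Tn.any_fan_in
    (Pool.Agent.P.MP_b53add_lc.Tn.pool_nonempty c t (by omega)) inferInstance _ _
    (R n (by omega)).2 kind predIn predG o v h1 h2 h3 h4)

end Pool.Agent.Results.MP_b53add_lc.MonotoneLinear
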