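import Pool.Agent.K.MP_b53add_lc.C12

/-!
Exponential lower bound for circuits for 3-CNF-SAT of the form OR of ANDs of gates, each gate an
OR of negated inputs and of an arbitrary Boolean function of at most `n ^ 2 / exp (C √(log n))`
inputs.

The inputs `x c` are indexed by the clauses `c` (sets of at most three literals).  Gate `(i, j)` is
the OR of the negations of the inputs in `N i j` and of `h i j x`, where `h i j` depends only on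
the inputs in `P i j`.
-/

namespace Pool.Agent.Results.MP_b53add_lc.SigmaThree

open Pool.Agent.P.MP_b53add_lc.S3

theorem result : ∃ δ : ℝ, 0 < δ ∧ ∃ C : ℝ, ∃ n₀ : ℕ, ∀ n : ℕ, n₀ ≤ n →
    ∀ (s t : ℕ) (N P : Fin s → Fin t → Finset {c : Finset (Fin n × Bool) // c.card ≤ 3})
      (h : Fin s → Fin t → ({c : Finset (Fin n × Bool) // c.card ≤ 3} → Bool) → Bool),
      (s : ℝ) ≤ 2 ^ (δ * n) → (t : ℝ) ≤ 2 ^ (δ * n) →
      (∀ i j, ((P i j).card : ℝ) ≤ (n : ℝ) ^ 2 / Real.exp (C * √(Real.log n))) →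
      (∀ i j x x', (∀ c ∈ P i j, x c = x' c) → h i j x = h i j x') →
      ¬∀ x : {c : Finset (Fin n × Bool) // c.card ≤ 3} → Bool,
        (∃ i, ∀ j, (∃ c ∈ N i j, x c = false) ∨ h i j x = true) ↔
          ∃ a : Fin n → Bool, ∀ c, x c = true → ∃ l ∈ c.1, a l.1 = l.2 := by
  refine ⟨1 / 10 ^ 14, by norm_num, 10 ^ 18, ⌈Real.exp (10 ^ 36)⌉₊,
    fun n hn s' t' N P h h1 h2 h3 h4 H => ?_⟩
  have hn1 : Real.exp (10 ^ 36) ≤ n := Nat.ceil_le.1 hn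
  have hn2 : (10 : ℝ) ^ 36 ≤ n := by linarith [Real.add_one_le_exp ((10 : ℝ) ^ 36)]
  have hn0 : (0 : ℝ) < n := lt_of_lt_of_le (by norm_num) hn2
  have hl : (10 : ℝ) ^ 36 ≤ Real.log n := (Real.le_log_iff_exp_le hn0).2 hn1
  set s := √(Real.log n) with hs
  have hs2 : s ^ 2 = Real.log n := Real.sq_sqrt (le_trans (by norm_num) hl)
  have hs1 : (10 : ℝ) ^ 18 ≤ s := Real.le_sqrt_of_sq_le (by rw [← pow_mul]; exact hl)
  obtain ⟨w, hw⟩ : ∃ w, w = ⌈1 / 10 ^ 14 * (n : ℝ)⌉₊ := ⟨_, rfl⟩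
  have hw1 : 1 / 10 ^ 14 * (n : ℝ) ≤ w := hw ▸ Nat.le_ceil _
  have hw2 : (w : ℝ) < 1 / 10 ^ 14 * (n : ℝ) + 1 := hw ▸ Nat.ceil_lt_add_one (by positivity)
  have hpow : (2 : ℝ) ^ (1 / 10 ^ 14 * (n : ℝ)) ≤ 2 ^ w := by
    rw [← Real.rpow_natCast 2 w]
    exact Real.rpow_le_rpow_of_exponent_le (x := 2) (by norm_num) hw1
  obtain ⟨κ, hκ⟩ : ∃ κ, κ = ⌈s⌉₊ := ⟨_, rfl⟩
  have hκ1 : s ≤ κ := hκ ▸ Nat.le_ceil _
  have hκ2 : (κ : ℝ) < s + 1 := hκ ▸ Nat.ceil_lt_add_one (by positivity)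
  have hκ3 : 1 ≤ κ := by exact_mod_cast (show (1 : ℝ) ≤ κ by linarith)
  have hE := Real.exp_pos (10 ^ 18 * s)
  have hE2 : Real.exp (10 ^ 18 * s) ≤ (n : ℝ) ^ 2 := by
    rw [← Real.exp_log (show 0 < (n : ℝ) ^ 2 by positivity), Real.exp_le_exp, Real.log_pow, ← hs2]
    push_cast
    nlinarith
  obtain ⟨k, hk⟩ : ∃ k, k = ⌊(n : ℝ) ^ 2 / Real.exp (10 ^ 18 * s)⌋₊ := ⟨_, rfl⟩
  have hk1 : (k : ℝ) ≤ (n : ℝ) ^ 2 / Real.exp (10 ^ 18 * s) := hk ▸ Nat.floor_le (by positivity)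
  refine finite_junta (w := w) (L := 10 ^ 9 * κ) (M := 10 ^ 16 * κ) (κ₀ := κ) (k := k)
    (by exact_mod_cast (show (31 : ℝ) ≤ w by linarith))
    (by exact_mod_cast (show (10 : ℝ) ^ 13 * (2 * w) ≤ n by linarith)) hκ3 le_rfl (by omega)
    (hk ▸ Nat.le_floor (by rw [Nat.cast_one, one_le_div hE]; exact hE2)) ?_ ?_
    (by exact_mod_cast h1.trans hpow) (by exact_mod_cast h2.trans hpow) N P h
    (fun i j => hk ▸ Nat.le_floor (h3 i j)) h4 H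
  · obtain ⟨e, he⟩ : ∃ e, e = 10 ^ 9 * κ + 5 * (10 ^ 16 * κ) + 16 := ⟨_, rfl⟩
    rw [← he]
    have a1 : (e : ℝ) ≤ 10 ^ 18 * s := by
      rw [he]
      push_cast
      linarith
    have a2 := (two_pow_le_exp e).trans (Real.exp_le_exp.2 a1)
    rw [le_div_iff₀ hE] at hk1
    have a3 := (mul_le_mul_of_nonneg_left a2 (Nat.cast_nonneg k)).trans hk1
    exact_mod_cast a3
  · have a1 : n ≤ 2 ^ (2 * κ * κ) := by
      have a2 : Real.log n ≤ (κ : ℝ) ^ 2 := hs2 ▸ pow_le_pow_left₀ (by positivity) hκ1 2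
      have a3 : (n : ℝ) ≤ Real.exp 1 ^ (κ * κ) := by
        rw [← Real.exp_nat_mul, ← Real.log_le_iff_le_exp hn0]
        push_cast
        linarith
      have a4 : Real.exp 1 ^ (κ * κ) ≤ (2 ^ 2) ^ (κ * κ) :=
        pow_le_pow_left₀ (Real.exp_pos 1).le (by linarith [Real.exp_one_lt_d9]) _
      rw [← pow_mul, ← mul_assoc] at a4
      exact_mod_cast a3.trans a4
    have a2 : κ ≤ κ * κ := Nat.le_mul_of_pos_left _ hκ3
    have a3 : 1 ≤ 2 ^ (2 * κ * κ) * 2 ^ (10 ^ 9 * κ) := Nat.one_le_iff_ne_zero.2 (by positivity)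
    calc 5000 * n * 2 ^ (10 ^ 9 * κ) + 2
        ≤ 5000 * (2 ^ (2 * κ * κ) * 2 ^ (10 ^ 9 * κ)) + 2 := by rw [mul_assoc]; gcongr
      _ ≤ 2 ^ 13 * (2 ^ (2 * κ * κ) * 2 ^ (10 ^ 9 * κ)) := by omega
      _ = 2 ^ (13 + (2 * κ * κ + 10 ^ 9 * κ)) := by rw [pow_add, pow_add]
      _ ≤ 2 ^ (5 * (10 ^ 16 * κ) * κ) := Nat.pow_le_pow_right (by norm_num) (by nlinarith)

end Pool.Agent.Results.MP_b53add_lc.SigmaThree
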